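import Pool.Agent.Helper7.EC_E.GoalsR

/-!
# Packet EY
-/

set_option autoImplicit false

open MeasureTheory Filter Topology Set

namespace EC237.ZE.PkEY

/-- the error of the cotangent sums -/
noncomputable def er (z : ℝ) (n : ℤ) : ℝ := if n = 0 then 0 else Real.exp (-(|(n:ℝ)| * z))

theorem er_nonneg (z : ℝ) (n : ℤ) : 0 ≤ er z n := by
  unfold er
  split_ifs
  · exact le_rfl
  · positivity

/-- The bounds of CE with the constant `C`. -/
def CEb (C : ℝ) : Prop := ∀ (c : ℤ) (T : ℝ), 1 ≤ T →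
  ‖Sf 1 c (-(Complex.I * T)) - Complex.I * (Real.pi / 6)‖ ≤ C * Real.exp (-T) ∧
  ‖Sf 1 c (Complex.I * T) + Complex.I * (Real.pi / 6)‖ ≤ C * Real.exp (-T) ∧
  ∀ r : ℕ, 2 ≤ r → r ≤ 4 →
    ‖Sf r c (-(Complex.I * T))‖ ≤ C * Real.exp (-T) ∧ ‖Sf r c (Complex.I * T)‖ ≤ C * Real.exp (-T)

theorem T_ge {z : ℝ} (hz : 1 ≤ z) {n : ℤ} (hn : n ≠ 0) : 1 ≤ |(n:ℝ)| * z := by
  have h : (1:ℝ) ≤ |(n:ℝ)| := by
    exact_mod_cast Int.one_le_abs hn
  nlinarith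

theorem pos_arg {z : ℝ} {n : ℤ} (hn : 0 < n) :
    Complex.I * (n:ℂ) * z = Complex.I * ((|(n:ℝ)| * z : ℝ) : ℂ) := by
  have h : |(n:ℝ)| = n := abs_of_pos (by exact_mod_cast hn)
  rw [h]
  push_cast
  ring

theorem neg_arg {z : ℝ} {n : ℤ} (hn : n < 0) :
    Complex.I * (n:ℂ) * z = -(Complex.I * ((|(n:ℝ)| * z : ℝ) : ℂ)) := by
  have h : |(n:ℝ)| = -n := abs_of_neg (by exact_mod_cast hn)
  rw [h]
  push_cast
  ring

theorem Sa1 {C : ℝ} (h : CEb C) {z : ℝ} (hz : 1 ≤ z) (c : ℤ) (v : ℝ) (hv : Sf 1 c 0 = (v:ℂ))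
    (n : ℤ) : ‖Sa 1 c z n - la v n‖ ≤ C * er z n := by
  unfold Sa la er
  rcases lt_trichotomy n 0 with hn | rfl | hn
  · rw [if_neg hn.ne, if_neg hn.ne, neg_arg hn, neg_neg, Int.sign_eq_neg_one_of_neg hn]
    have h1 := (h (c - 3 * n) _ (T_ge hz hn.ne)).2.1
    push_cast at h1 ⊢
    rw [mul_neg_one, sub_neg_eq_add]
    exact h1
  · simp [hv]
  · rw [if_neg hn.ne', if_neg hn.ne', pos_arg hn, Int.sign_eq_one_of_pos hn]
    have h1 := (h (c - 3 * n) _ (T_ge hz hn.ne')).1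
    push_cast at h1 ⊢
    rw [mul_one]
    exact h1

theorem Sb1 {C : ℝ} (h : CEb C) {z : ℝ} (hz : 1 ≤ z) (c : ℤ) (v : ℝ) (hv : Sf 1 c 0 = (v:ℂ))
    (n : ℤ) : ‖Sb 1 c z n - lb v n‖ ≤ C * er z n := by
  unfold Sb lb er
  rcases lt_trichotomy n 0 with hn | rfl | hn
  · rw [if_neg hn.ne, if_neg hn.ne, neg_arg hn, Int.sign_eq_neg_one_of_neg hn]
    have h1 := (h (c - 3 * n) _ (T_ge hz hn.ne)).1
    push_cast at h1 ⊢
    rw [mul_neg_one, neg_neg]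
    exact h1
  · simp [hv]
  · rw [if_neg hn.ne', if_neg hn.ne', pos_arg hn, Int.sign_eq_one_of_pos hn]
    have h1 := (h (c - 3 * n) _ (T_ge hz hn.ne')).2.1
    push_cast at h1 ⊢
    rw [mul_one, sub_neg_eq_add]
    exact h1

theorem Sar {C : ℝ} (h : CEb C) {z : ℝ} (hz : 1 ≤ z) (r : ℕ) (h2 : 2 ≤ r) (h4 : r ≤ 4) (c : ℤ)
    (v : ℝ) (hv : Sf r c 0 = (v:ℂ)) (n : ℤ) : ‖Sa r c z n - l0 v n‖ ≤ C * er z n := by
  unfold Sa l0 er
  rcases lt_trichotomy n 0 with hn | rfl | hn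
  · rw [if_neg hn.ne, if_neg hn.ne, neg_arg hn, neg_neg, sub_zero]
    exact ((h (c - 3 * n) _ (T_ge hz hn.ne)).2.2 r h2 h4).2
  · simp [hv]
  · rw [if_neg hn.ne', if_neg hn.ne', pos_arg hn, sub_zero]
    exact ((h (c - 3 * n) _ (T_ge hz hn.ne')).2.2 r h2 h4).1

theorem Sbr {C : ℝ} (h : CEb C) {z : ℝ} (hz : 1 ≤ z) (r : ℕ) (h2 : 2 ≤ r) (h4 : r ≤ 4) (c : ℤ)
    (v : ℝ) (hv : Sf r c 0 = (v:ℂ)) (n : ℤ) : ‖Sb r c z n - l0 v n‖ ≤ C * er z n := by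
  unfold Sb l0 er
  rcases lt_trichotomy n 0 with hn | rfl | hn
  · rw [if_neg hn.ne, if_neg hn.ne, neg_arg hn, sub_zero]
    exact ((h (c - 3 * n) _ (T_ge hz hn.ne)).2.2 r h2 h4).1
  · simp [hv]
  · rw [if_neg hn.ne', if_neg hn.ne', pos_arg hn, sub_zero]
    exact ((h (c - 3 * n) _ (T_ge hz hn.ne')).2.2 r h2 h4).2

theorem norm_Dz {s : ℤ × ℤ} (hs : s.2 ≠ 0) (z : ℝ) (n : ℤ) : 1 ≤ ‖Dz z s n‖ := by
  have h1 : (Dz z s n).re = s.2 := by
    unfold Dz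
    simp
  have h2 := Complex.abs_re_le_norm (Dz z s n)
  rw [h1] at h2
  refine le_trans ?_ h2
  exact_mod_cast Int.one_le_abs hs

/-- The bounds of ERR with the constant `C`. -/
def ERb (C : ℝ) : Prop := ∀ z : ℝ, 1 ≤ z → ∀ s : ℤ × ℤ, s ≠ 0 → ∀ (M : ℝ) (δ : ℤ → ℂ),
  0 ≤ M → (∀ n : ℤ, ‖δ n‖ ≤ M * ((if n = 0 then 0 else Real.exp (-(|(n:ℝ)| * z))) +
    (if s.1 - n = 0 then 0 else Real.exp (-(|((s.1 - n : ℤ):ℝ)| * z)))) / max 1 ‖Dz z s n‖) →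
  Summable δ ∧ ‖∑' n : ℤ, δ n‖ ≤ C * M * Real.exp (-z) / rk s

theorem cube_exp {z : ℝ} (hz : 0 ≤ z) : z ^ 3 * Real.exp (-z) ≤ 48 * Real.exp (-(z / 2)) := by
  have h1 := Real.pow_div_factorial_le_exp (z / 2) (by positivity) 3
  have h2 : z ^ 3 ≤ 48 * Real.exp (z / 2) := by
    have : (z / 2) ^ 3 / (Nat.factorial 3 : ℝ) = z ^ 3 / 48 := by
      norm_num [Nat.factorial]
      ring
    rw [this] at h1
    linarith
  calc z ^ 3 * Real.exp (-z) ≤ 48 * Real.exp (z / 2) * Real.exp (-z) :=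
        mul_le_mul_of_nonneg_right h2 (Real.exp_pos _).le
    _ = 48 * Real.exp (-(z / 2)) := by
        rw [mul_assoc, ← Real.exp_add]
        congr 2
        ring

set_option linter.unusedVariables false in
theorem core {C' : ℝ} (hC' : 0 < C') (he : ERb C') {P M : ℤ → ℂ} {Y : ℂ} {z K : ℝ}
    (hz : 1 ≤ z) {s : ℤ × ℤ} (hs : s ≠ 0) (hK : 0 ≤ K)
    (hsum : HasSum (fun n : ℤ => -(Complex.I * z ^ 3) * (P n + star (P n))) Y)
    (hδ : ∀ n : ℤ, ‖P n - M n‖ ≤ K * (er z n + er z (s.1 - n)) / max 1 ‖Dz z s n‖) :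
    Summable (fun n : ℤ => -(Complex.I * z ^ 3) * (M n + star (M n))) ∧
    ‖Y - ∑' n : ℤ, -(Complex.I * z ^ 3) * (M n + star (M n))‖ ≤
      (96 * C' * K) * Real.exp (-(z / 2)) / rk s := by
  obtain ⟨h1, h2⟩ := he z hz s hs K (fun n => P n - M n) hK hδ
  have h1' : Summable fun n => star (P n - M n) := h1.star
  have h3 : HasSum (fun n : ℤ => -(Complex.I * z ^ 3) * ((P n - M n) + star (P n - M n)))
      (-(Complex.I * z ^ 3) * (∑' n, (P n - M n) + star (∑' n, (P n - M n)))) := by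
    have h4 : HasSum (fun n => star (P n - M n)) (star (∑' n, (P n - M n))) := h1.hasSum.star
    exact (h1.hasSum.add h4).mul_left _
  have h5 := hsum.sub h3
  have h6 : (fun n : ℤ => -(Complex.I * z ^ 3) * (P n + star (P n)) -
      -(Complex.I * z ^ 3) * ((P n - M n) + star (P n - M n))) =
      fun n : ℤ => -(Complex.I * z ^ 3) * (M n + star (M n)) := by
    funext n
    rw [star_sub]
    ring
  rw [h6] at h5
  refine ⟨h5.summable, ?_⟩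
  rw [h5.tsum_eq, sub_sub_cancel, norm_mul]
  have h7 : ‖-(Complex.I * (z:ℂ) ^ 3)‖ = z ^ 3 := by
    rw [norm_neg, norm_mul, Complex.norm_I, one_mul, norm_pow, Complex.norm_real,
      Real.norm_of_nonneg (by linarith)]
  rw [h7]
  have h8 : ‖∑' n, (P n - M n) + star (∑' n, (P n - M n))‖ ≤
      2 * (C' * K * Real.exp (-z) / rk s) := by
    refine (norm_add_le _ _).trans ?_
    rw [norm_star]
    linarith
  have h9 : 0 ≤ rk s := Real.sqrt_nonneg _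
  calc z ^ 3 * ‖∑' n, (P n - M n) + star (∑' n, (P n - M n))‖
      ≤ z ^ 3 * (2 * (C' * K * Real.exp (-z) / rk s)) :=
        mul_le_mul_of_nonneg_left h8 (by positivity)
    _ = 2 * C' * K * (z ^ 3 * Real.exp (-z)) / rk s := by ring
    _ ≤ 2 * C' * K * (48 * Real.exp (-(z / 2))) / rk s := by
        refine div_le_div_of_nonneg_right ?_ h9
        exact mul_le_mul_of_nonneg_left (cube_exp (by linarith)) (by positivity)
    _ = (96 * C' * K) * Real.exp (-(z / 2)) / rk s := by ring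

theorem InCl2 {s : ℤ × ℤ} (h : InCl 2 s) : s.2 ≠ 0 := by
  intro h0
  unfold InCl at h
  rw [h0] at h
  omega

theorem frac_bound {D A B : ℂ} {K L e1 e2 : ℝ} (hD : 1 ≤ ‖D‖) (hA : ‖A‖ ≤ K * (e1 + e2))
    (hB : ‖B‖ ≤ L * (e1 + e2)) (hK : 0 ≤ K) (hL : 0 ≤ L) (he : 0 ≤ e1 + e2) :
    ‖A / D + B / D ^ 2‖ ≤ (K + L) * (e1 + e2) / max 1 ‖D‖ := by
  rw [max_eq_right hD]
  have hD0 : 0 < ‖D‖ := by linarith
  refine (norm_add_le _ _).trans ?_
  rw [norm_div, norm_div, norm_pow]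
  have h1 : ‖A‖ / ‖D‖ ≤ K * (e1 + e2) / ‖D‖ := div_le_div_of_nonneg_right hA hD0.le
  have h2 : ‖B‖ / ‖D‖ ^ 2 ≤ L * (e1 + e2) / ‖D‖ := by
    refine div_le_div₀ (mul_nonneg hL he) hB hD0 ?_
    nlinarith
  calc ‖A‖ / ‖D‖ + ‖B‖ / ‖D‖ ^ 2 ≤ K * (e1 + e2) / ‖D‖ + L * (e1 + e2) / ‖D‖ := by linarith
    _ = (K + L) * (e1 + e2) / ‖D‖ := by ring

theorem thm (h1 : EC237.ZE.G_CE) (h2 : EC237.ZE.G_CV) (h3 : EC237.ZE.G_NS)
    (h4 : EC237.ZE.G_ERR) : EC237.ZE.G_EY := by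
  obtain ⟨C, hC, hce⟩ := h1
  obtain ⟨C', hC', herr⟩ := h4
  have hce' : CEb C := hce
  have herr' : ERb C' := herr
  obtain ⟨v11, v13, -, -, v21, v23, -, -, -⟩ := h2
  have v13' : Sf 1 3 0 = ((0:ℝ):ℂ) := by rw [v13]; norm_num
  refine ⟨96 * C' * (4 * C), by positivity, fun z hz s hs => ?_⟩
  have hs2 := InCl2 hs
  have hs0 : s ≠ 0 := fun h => hs2 (by rw [h]; rfl)
  have hsn : -s ≠ 0 := neg_ne_zero.2 hs0
  have hsn2 : (-s).2 ≠ 0 := by
    rw [Prod.snd_neg]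
    exact neg_ne_zero.2 hs2
  have hrk : rk (-s) = rk s := by
    unfold rk
    congr 1
    simp
  obtain ⟨hY, hW, -, -⟩ := h3 z (by linarith) s
  have kY := core hC' herr' (K := 4 * C) hz hs0 (by positivity) (hY hs) (M := MY' z s) (by
    intro n
    have e1 : PY z s n - MY' z s n = (Sa 2 1 z n - l0 (Real.pi ^ 2 / 9) n) / Dz z s n +
        ((Sa 1 1 z n - la w1 n) + (Sb 1 1 z (s.1 - n) - lb w1 (s.1 - n))) / Dz z s n ^ 2 := by
      unfold PY MY'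
      ring
    rw [e1]
    have b1 := Sar hce' hz 2 le_rfl (by norm_num) 1 _ v21 n
    have b2 := Sa1 hce' hz 1 _ v11 n
    have b3 := Sb1 hce' hz 1 _ v11 (s.1 - n)
    have p1 := er_nonneg z n
    have p2 := er_nonneg z (s.1 - n)
    have hCp : 0 ≤ C * er z (s.1 - n) := by positivity
    have hCp1 : 0 ≤ C * er z n := by positivity
    refine (frac_bound (K := C) (L := C) (e1 := er z n) (e2 := er z (s.1 - n)) (norm_Dz hs2 z n) (by linarith)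
      ((norm_add_le _ _).trans (by linarith)) hC.le hC.le (by linarith)).trans ?_
    refine div_le_div_of_nonneg_right ?_ (by positivity)
    nlinarith)
  have kW := core hC' herr' (K := 4 * C) hz hsn (by positivity) (hW hs) (M := MW' z (-s)) (by
    intro n
    have e1 : PW z (-s) n - MW' z (-s) n = ((Sa 2 1 z n - l0 (Real.pi ^ 2 / 9) n) +
        (Sb 2 3 z ((-s).1 - n) - l0 (Real.pi ^ 2 / 36) ((-s).1 - n))) / Dz z (-s) n +
        (2 * ((Sa 1 1 z n - la w1 n) + (Sb 1 3 z ((-s).1 - n) - lb 0 ((-s).1 - n)))) /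
          Dz z (-s) n ^ 2 := by
      unfold PW MW'
      ring
    rw [e1]
    have b1 := Sar hce' hz 2 le_rfl (by norm_num) 1 _ v21 n
    have b2 := Sa1 hce' hz 1 _ v11 n
    have b3 := Sb1 hce' hz 3 _ v13' ((-s).1 - n)
    have b4 := Sbr hce' hz 2 le_rfl (by norm_num) 3 _ v23 ((-s).1 - n)
    have p1 := er_nonneg z n
    have p2 := er_nonneg z ((-s).1 - n)
    have hCp : 0 ≤ C * er z ((-s).1 - n) := by positivity
    have hCp1 : 0 ≤ C * er z n := by positivity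
    refine (frac_bound (K := C) (L := 2 * C) (e1 := er z n) (e2 := er z ((-s).1 - n))
      (norm_Dz hsn2 z n)
      ((norm_add_le _ _).trans (by linarith)) ?_ hC.le (by positivity) (by linarith)).trans ?_
    · rw [norm_mul, Complex.norm_ofNat]
      have := norm_add_le (Sa 1 1 z n - la w1 n) (Sb 1 3 z ((-s).1 - n) - lb 0 ((-s).1 - n))
      linarith
    · refine div_le_div_of_nonneg_right ?_ (by positivity)
      nlinarith)
  rw [hrk] at kW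
  exact ⟨kY.1, kY.2, kW.1, kW.2⟩

end EC237.ZE.PkEY
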